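import Mathlib

/-!
Hermite functions: recurrence, derivative, orthonormality.
-/

namespace Pool.Agent.H548LP

open MeasureTheory Real Polynomial

/-- `c k = √((k + 1) / 2)` -/
noncomputable def cc (k : ℕ) : ℝ := √(((k : ℝ) + 1) / 2)

theorem cc_pos (k : ℕ) : 0 < cc k := Real.sqrt_pos.mpr (by positivity)

theorem cc_sq (k : ℕ) : cc k ^ 2 = ((k : ℝ) + 1) / 2 := Real.sq_sqrt (by positivity)

/-- The polynomial factor of the Hermite functions. -/
noncomputable def hp : ℕ → ℝ[X]
  | 0 => C (π ^ (-(1 / 4) : ℝ))
  | 1 => C (1 / cc 0) * (X * C (π ^ (-(1 / 4) : ℝ)))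
  | k + 2 => C (1 / cc (k + 1)) * (X * hp (k + 1) - C (cc k) * hp k)

theorem x_hp_zero (x : ℝ) : x * (hp 0).eval x = cc 0 * (hp 1).eval x := by
  have := (cc_pos 0).ne'
  simp only [hp, eval_mul, eval_C, eval_X]
  field_simp

theorem x_hp_succ (k : ℕ) (x : ℝ) :
    x * (hp (k + 1)).eval x = cc (k + 1) * (hp (k + 2)).eval x + cc k * (hp k).eval x := by
  have := (cc_pos (k + 1)).ne'
  rw [show hp (k + 2) = C (1 / cc (k + 1)) * (X * hp (k + 1) - C (cc k) * hp k) from rfl]
  simp only [eval_mul, eval_C, eval_X, eval_sub]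
  field_simp
  ring

theorem deriv_hp_zero (x : ℝ) : (derivative (hp 0)).eval x = 0 := by simp [hp]

theorem deriv_hp_succ (k : ℕ) (x : ℝ) :
    (derivative (hp (k + 1))).eval x = 2 * cc k * (hp k).eval x := by
  induction k using Nat.strong_induction_on with
  | _ k ih =>
    rcases k with _ | k
    · have h := cc_sq 0
      have h' := (cc_pos 0).ne'
      simp only [hp, derivative_mul, derivative_C, derivative_X, eval_add, eval_mul, eval_C,
        eval_X, eval_one, eval_zero]
      field_simp
      rw [h]
      push_cast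
      ring
    · have h := cc_sq k
      have h2 := cc_sq (k + 1)
      have h' := (cc_pos k).ne'
      have h2' := (cc_pos (k + 1)).ne'
      have hx := x_hp_succ k x
      rw [show hp (k + 1 + 1) = C (1 / cc (k + 1)) * (X * hp (k + 1) - C (cc k) * hp k) from rfl]
      simp only [derivative_mul, derivative_C, derivative_X, derivative_sub, eval_add, eval_mul,
        eval_C, eval_X, eval_one, eval_zero, eval_sub]
      rw [ih k (Nat.lt_succ_self k)]
      have key : 2 * cc k * (x * (hp k).eval x) - cc k * (derivative (hp k)).eval x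
          = 2 * cc k ^ 2 * (hp (k + 1)).eval x := by
        rcases k with _ | k
        · rw [deriv_hp_zero, x_hp_zero]; ring
        · rw [ih k (by omega), x_hp_succ]
          ring
      have e : 1 / cc (k + 1) * (1 * (hp (k + 1)).eval x + x * (2 * cc k * (hp k).eval x)
          - (0 * (hp k).eval x + cc k * (derivative (hp k)).eval x))
          = 1 / cc (k + 1) * ((hp (k + 1)).eval x + 2 * cc k ^ 2 * (hp (k + 1)).eval x) := by
        rw [← key]; ring
      rw [zero_mul, zero_add, e, h]
      field_simp
      rw [h2]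
      push_cast
      ring

/-- The Hermite functions. -/
noncomputable def ph (k : ℕ) (x : ℝ) : ℝ := (hp k).eval x * Real.exp (-(x ^ 2) / 2)

theorem ph_zero (x : ℝ) : ph 0 x = π ^ (-(1 / 4) : ℝ) * Real.exp (-(x ^ 2) / 2) := by
  simp [ph, hp]

theorem x_ph_zero (x : ℝ) : x * ph 0 x = cc 0 * ph 1 x := by
  unfold ph
  rw [← mul_assoc, x_hp_zero, mul_assoc]

theorem x_ph_succ (k : ℕ) (x : ℝ) :
    x * ph (k + 1) x = cc (k + 1) * ph (k + 2) x + cc k * ph k x := by
  unfold ph
  rw [← mul_assoc, x_hp_succ]
  ring

theorem hasDerivAt_exp_half (x : ℝ) :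
    HasDerivAt (fun x : ℝ => Real.exp (-(x ^ 2) / 2)) (-x * Real.exp (-(x ^ 2) / 2)) x := by
  have h : HasDerivAt (fun x : ℝ => -(x ^ 2) / 2) (-x) x := by
    have := ((hasDerivAt_pow 2 x).neg).div_const 2
    refine this.congr_deriv ?_
    push_cast
    ring
  refine h.exp.congr_deriv ?_
  ring

theorem hasDerivAt_ph (k : ℕ) (x : ℝ) :
    HasDerivAt (ph k) ((derivative (hp k)).eval x * Real.exp (-(x ^ 2) / 2) - x * ph k x) x := by
  refine (((hp k).hasDerivAt x).mul (hasDerivAt_exp_half x)).congr_deriv ?_
  unfold ph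
  ring

theorem hasDerivAt_ph_zero (x : ℝ) : HasDerivAt (ph 0) (- (x * ph 0 x)) x := by
  refine (hasDerivAt_ph 0 x).congr_deriv ?_
  rw [deriv_hp_zero]
  ring

theorem hasDerivAt_ph_succ (k : ℕ) (x : ℝ) :
    HasDerivAt (ph (k + 1)) (2 * cc k * ph k x - x * ph (k + 1) x) x := by
  refine (hasDerivAt_ph (k + 1) x).congr_deriv ?_
  rw [deriv_hp_succ]
  unfold ph
  ring

theorem continuous_ph (k : ℕ) : Continuous (ph k) := by
  unfold ph
  fun_prop

/-- The derivative of `ph k`. -/
noncomputable def dph (k : ℕ) (x : ℝ) : ℝ := x * ph k x - 2 * cc k * ph (k + 1) x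

theorem hasDerivAt_ph' (k : ℕ) (x : ℝ) : HasDerivAt (ph k) (dph k x) x := by
  rcases k with _ | k
  · refine (hasDerivAt_ph_zero x).congr_deriv ?_
    unfold dph
    rw [mul_assoc, ← x_ph_zero]
    ring
  · refine (hasDerivAt_ph_succ k x).congr_deriv ?_
    have := x_ph_succ k x
    unfold dph
    linarith

theorem ann_zero (x : ℝ) : x * ph 0 x + dph 0 x = 0 := by
  unfold dph
  rw [mul_assoc, ← x_ph_zero]
  ring

theorem ann_succ (k : ℕ) (x : ℝ) : x * ph (k + 1) x + dph (k + 1) x = 2 * cc k * ph k x := by
  have := x_ph_succ k x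
  unfold dph
  linarith

/-! ### Integrals of polynomials times Gaussians -/

theorem integrable_poly_gauss (Q : ℝ[X]) {α : ℝ} (hα : 0 < α) :
    Integrable (fun x : ℝ => Q.eval x * Real.exp (-α * x ^ 2)) := by
  induction Q using Polynomial.induction_on' with
  | add p q hp hq =>
    have := hp.add hq
    refine this.congr (Filter.Eventually.of_forall fun x => ?_)
    simp only [Pi.add_apply, eval_add]
    ring
  | monomial n a =>
    have h := integrable_rpow_mul_exp_neg_mul_sq hα (s := (n : ℝ))
      (by have : (0 : ℝ) ≤ n := Nat.cast_nonneg n; linarith)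
    refine (h.const_mul a).congr (Filter.Eventually.of_forall fun x => ?_)
    simp only [eval_monomial, Real.rpow_natCast]
    ring

theorem ph_mul_ph (a b : ℕ) (x : ℝ) :
    ph a x * ph b x = (hp a * hp b).eval x * Real.exp (-1 * x ^ 2) := by
  unfold ph
  rw [eval_mul, show -1 * x ^ 2 = -(x ^ 2) / 2 + -(x ^ 2) / 2 by ring, Real.exp_add]
  ring

theorem integrable_poly_ph (Q : ℝ[X]) (a b : ℕ) :
    Integrable (fun x : ℝ => Q.eval x * (ph a x * ph b x)) := by
  refine (integrable_poly_gauss (Q * (hp a * hp b)) one_pos).congr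
    (Filter.Eventually.of_forall fun x => ?_)
  simp only [ph_mul_ph, eval_mul]
  ring

theorem integrable_ph (a b : ℕ) : Integrable (fun x : ℝ => ph a x * ph b x) := by
  simpa using integrable_poly_ph 1 a b

theorem integrable_x_ph (a b : ℕ) : Integrable (fun x : ℝ => x * (ph a x * ph b x)) := by
  simpa using integrable_poly_ph X a b

theorem integral_ladder_aux (a b : ℕ) :
    ∫ x, (x * ph a x + dph a x) * ph b x = 2 * cc b * ∫ x, ph a x * ph (b + 1) x := by
  have h0 : ∀ x, HasDerivAt (fun x => ph a x * ph b x) (dph a x * ph b x + ph a x * dph b x) x :=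
    fun x => (hasDerivAt_ph' a x).mul (hasDerivAt_ph' b x)
  have hi1 : Integrable (fun x => dph a x * ph b x + ph a x * dph b x) := by
    have e : (fun x => dph a x * ph b x + ph a x * dph b x)
        = fun x => 2 * (x * (ph a x * ph b x)) - 2 * cc a * (ph (a + 1) x * ph b x)
          - 2 * cc b * (ph a x * ph (b + 1) x) := by
      funext x; unfold dph; ring
    rw [e]
    exact ((integrable_x_ph a b).const_mul 2).sub ((integrable_ph (a + 1) b).const_mul _) |>.sub
      ((integrable_ph a (b + 1)).const_mul _)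
  have h1 := integral_eq_zero_of_hasDerivAt_of_integrable h0 hi1 (integrable_ph a b)
  have e2 : ∀ x, dph a x * ph b x + ph a x * dph b x
      = (x * ph a x + dph a x) * ph b x - 2 * cc b * (ph a x * ph (b + 1) x) := by
    intro x
    show _ = (x * ph a x + dph a x) * ph b x - 2 * cc b * (ph a x * ph (b + 1) x)
    rw [show dph b x = x * ph b x - 2 * cc b * ph (b + 1) x from rfl]
    ring
  have hi2 : Integrable (fun x => (x * ph a x + dph a x) * ph b x) := by
    have e : (fun x => (x * ph a x + dph a x) * ph b x)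
        = fun x => 2 * (x * (ph a x * ph b x)) - 2 * cc a * (ph (a + 1) x * ph b x) := by
      funext x; unfold dph; ring
    rw [e]
    exact ((integrable_x_ph a b).const_mul 2).sub ((integrable_ph (a + 1) b).const_mul _)
  simp only [e2] at h1
  rw [integral_sub hi2 ((integrable_ph a (b + 1)).const_mul _), integral_const_mul] at h1
  linarith

theorem integral_ph_zero_zero : ∫ x, ph 0 x * ph 0 x = 1 := by
  have e : ∀ x, ph 0 x * ph 0 x = π ^ (-(1 / 2) : ℝ) * Real.exp (-1 * x ^ 2) := by
    intro x
    rw [ph_zero, show -1 * x ^ 2 = -(x ^ 2) / 2 + -(x ^ 2) / 2 by ring, Real.exp_add]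
    rw [show (-(1 / 2) : ℝ) = -(1 / 4) + -(1 / 4) by norm_num, Real.rpow_add Real.pi_pos]
    ring
  simp only [e]
  rw [integral_const_mul, integral_gaussian, div_one, Real.sqrt_eq_rpow, ← Real.rpow_add Real.pi_pos]
  norm_num

theorem integral_ph (a b : ℕ) : ∫ x, ph a x * ph b x = if a = b then 1 else 0 := by
  induction b generalizing a with
  | zero =>
    rcases a with _ | a
    · rw [if_pos rfl]; exact integral_ph_zero_zero
    · rw [if_neg (by omega)]
      have h := integral_ladder_aux 0 a
      simp only [ann_zero, zero_mul, integral_zero] at h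
      have h2 : ∫ x, ph (a + 1) x * ph 0 x = ∫ x, ph 0 x * ph (a + 1) x := by
        congr 1; funext x; ring
      rw [h2]
      have := cc_pos a
      rcases mul_eq_zero.mp h.symm with h3 | h3
      · linarith
      · exact h3
  | succ b ih =>
    have hb := cc_pos b
    rcases a with _ | a
    · rw [if_neg (by omega)]
      have h := integral_ladder_aux 0 b
      simp only [ann_zero, zero_mul, integral_zero] at h
      rcases mul_eq_zero.mp h.symm with h3 | h3
      · linarith
      · exact h3
    · have h := integral_ladder_aux (a + 1) b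
      simp only [ann_succ, mul_assoc] at h
      rw [integral_const_mul, integral_const_mul, ih a] at h
      have e : ∫ x, ph (a + 1) x * ph (b + 1) x = cc a * (if a = b then 1 else 0) / cc b := by
        field_simp
        linarith
      rw [e]
      by_cases hab : a = b
      · subst hab
        rw [if_pos rfl, if_pos rfl, mul_one, div_self hb.ne']
      · rw [if_neg hab, if_neg (by omega), mul_zero, zero_div]

end Pool.Agent.H548LP
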