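import Pool.Agent.H548LP.Hermite

/-!
The diagonal Mehler inequality for Hermite functions.
-/

namespace Pool.Agent.H548LP

open MeasureTheory Real Polynomial

theorem integrable_poly_shift (Q : ℝ[X]) {α : ℝ} (hα : 0 < α) (μ : ℝ) :
    Integrable (fun y : ℝ => Q.eval y * Real.exp (-α * (y - μ) ^ 2)) := by
  have h := (integrable_poly_gauss (Q.comp (X + C μ)) hα).comp_sub_right μ
  refine h.congr (Filter.Eventually.of_forall fun y => ?_)
  simp [eval_comp]

theorem integral_gauss_shift {α : ℝ} (μ : ℝ) :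
    ∫ y : ℝ, Real.exp (-α * (y - μ) ^ 2) = √(π / α) := by
  rw [integral_sub_right_eq_self (fun y : ℝ => Real.exp (-α * y ^ 2)) μ, integral_gaussian]

section mehler

variable {α μ : ℝ}

/-- Gaussian averages of the Hermite polynomials. -/
noncomputable def mom (α μ : ℝ) (b : ℕ) : ℝ :=
  ∫ y, (hp b).eval y * Real.exp (-α * (y - μ) ^ 2)

theorem mom_parts (hα : 0 < α) (b : ℕ) :
    ∫ y, (derivative (hp b)).eval y * Real.exp (-α * (y - μ) ^ 2)
      = 2 * α * ((∫ y, (y * (hp b).eval y) * Real.exp (-α * (y - μ) ^ 2)) - μ * mom α μ b) := by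
  have h0 : ∀ y, HasDerivAt (fun y => (hp b).eval y * Real.exp (-α * (y - μ) ^ 2))
      ((derivative (hp b)).eval y * Real.exp (-α * (y - μ) ^ 2) -
        2 * α * ((y * (hp b).eval y) * Real.exp (-α * (y - μ) ^ 2)
          - μ * ((hp b).eval y * Real.exp (-α * (y - μ) ^ 2)))) y := by
    intro y
    have h1 : HasDerivAt (fun y : ℝ => -α * (y - μ) ^ 2) (-α * (2 * (y - μ))) y := by
      have := (((hasDerivAt_id y).sub_const μ).pow 2).const_mul (-α)
      refine this.congr_deriv ?_
      simp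
    refine (((hp b).hasDerivAt y).mul h1.exp).congr_deriv ?_
    ring
  have i1 := integrable_poly_shift (derivative (hp b)) hα μ
  have i2 : Integrable (fun y : ℝ => (y * (hp b).eval y) * Real.exp (-α * (y - μ) ^ 2)) := by
    have := integrable_poly_shift (X * hp b) hα μ
    simpa [eval_mul] using this
  have i3 := integrable_poly_shift (hp b) hα μ
  have i4 : Integrable (fun y : ℝ => 2 * α * ((y * (hp b).eval y) * Real.exp (-α * (y - μ) ^ 2)
      - μ * ((hp b).eval y * Real.exp (-α * (y - μ) ^ 2)))) :=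
    (i2.sub (i3.const_mul μ)).const_mul (2 * α)
  have h1 := integral_eq_zero_of_hasDerivAt_of_integrable h0 (i1.sub i4) i3
  rw [integral_sub i1 i4, integral_const_mul,
    integral_sub i2 (i3.const_mul μ), integral_const_mul] at h1
  unfold mom
  linarith

theorem mom_zero (α μ : ℝ) : mom α μ 0 = (hp 0).eval 0 * √(π / α) := by
  unfold mom
  have : ∀ y : ℝ, (hp 0).eval y = (hp 0).eval 0 := fun y => by simp [hp]
  simp only [this]
  rw [integral_const_mul, integral_gauss_shift]

theorem integral_x_hp_succ (hα : 0 < α) (b : ℕ) :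
    ∫ y, (y * (hp (b + 1)).eval y) * Real.exp (-α * (y - μ) ^ 2)
      = cc (b + 1) * mom α μ (b + 2) + cc b * mom α μ b := by
  unfold mom
  rw [← integral_const_mul, ← integral_const_mul, ← integral_add
    ((integrable_poly_shift _ hα μ).const_mul _) ((integrable_poly_shift _ hα μ).const_mul _)]
  congr 1
  funext y
  rw [x_hp_succ]
  ring

theorem integral_x_hp_zero :
    ∫ y, (y * (hp 0).eval y) * Real.exp (-α * (y - μ) ^ 2) = cc 0 * mom α μ 1 := by
  unfold mom
  rw [← integral_const_mul]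
  congr 1
  funext y
  rw [x_hp_zero]
  ring

theorem mom_eq {r : ℝ} (hr0 : 0 < r) (hr1 : r < 1) (x : ℝ) (b : ℕ) :
    mom (1 / (1 - r ^ 2)) (r * x) b
      = r ^ b * (hp b).eval x * √(π * (1 - r ^ 2)) := by
  have hr2 : 0 < 1 - r ^ 2 := by nlinarith
  have hα : 0 < 1 / (1 - r ^ 2) := by positivity
  induction b using Nat.strong_induction_on with
  | _ b ih =>
    rcases b with _ | _ | b
    · rw [mom_zero]
      have : (hp 0).eval x = (hp 0).eval 0 := by simp [hp]
      rw [this, pow_zero, one_mul]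
      congr 2
      field_simp
    · have h := mom_parts (μ := r * x) hα 0
      rw [integral_x_hp_zero] at h
      simp only [deriv_hp_zero, zero_mul, integral_zero] at h
      have h0 := ih 0 (by omega)
      have hc := (cc_pos 0).ne'
      have h1 : cc 0 * mom (1 / (1 - r ^ 2)) (r * x) 1 = r * x * mom (1 / (1 - r ^ 2)) (r * x) 0 := by
        rcases mul_eq_zero.mp h.symm with h3 | h3
        · exfalso
          have : 0 < 2 * (1 / (1 - r ^ 2)) := by positivity
          linarith
        · linarith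
      rw [h0, pow_zero, one_mul] at h1
      have hx := x_hp_zero x
      rw [pow_one]
      have : cc 0 * mom (1 / (1 - r ^ 2)) (r * x) (0 + 1)
          = cc 0 * (r * (hp (0 + 1)).eval x * √(π * (1 - r ^ 2))) := by
        rw [zero_add, h1]
        calc r * x * ((hp 0).eval x * √(π * (1 - r ^ 2)))
            = r * (x * (hp 0).eval x) * √(π * (1 - r ^ 2)) := by ring
          _ = _ := by rw [hx]; ring
      exact mul_left_cancel₀ hc this
    · have h := mom_parts (μ := r * x) hα (b + 1)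
      rw [integral_x_hp_succ hα] at h
      simp only [deriv_hp_succ] at h
      have e : ∫ y, 2 * cc b * (hp b).eval y * Real.exp (-(1 / (1 - r ^ 2)) * (y - r * x) ^ 2)
          = 2 * cc b * mom (1 / (1 - r ^ 2)) (r * x) b := by
        unfold mom
        rw [← integral_const_mul]
        congr 1
        funext y
        ring
      rw [e] at h
      have h0 := ih b (by omega)
      have h1 := ih (b + 1) (by omega)
      have hc := (cc_pos (b + 1)).ne'
      have hx := x_hp_succ b x
      have h2 : cc (b + 1) * mom (1 / (1 - r ^ 2)) (r * x) (b + 2)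
          = r * x * mom (1 / (1 - r ^ 2)) (r * x) (b + 1)
            - r ^ 2 * cc b * mom (1 / (1 - r ^ 2)) (r * x) b := by
        have hne := hr2.ne'
        field_simp at h
        linarith
      rw [h0, h1] at h2
      have : cc (b + 1) * mom (1 / (1 - r ^ 2)) (r * x) (b + 1 + 1)
          = cc (b + 1) * (r ^ (b + 1 + 1) * (hp (b + 1 + 1)).eval x * √(π * (1 - r ^ 2))) := by
        rw [show b + 1 + 1 = b + 2 from rfl, h2]
        have hx' : cc (b + 1) * (hp (b + 2)).eval x
            = x * (hp (b + 1)).eval x - cc b * (hp b).eval x := by linarith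
        calc r * x * (r ^ (b + 1) * (hp (b + 1)).eval x * √(π * (1 - r ^ 2)))
              - r ^ 2 * cc b * (r ^ b * (hp b).eval x * √(π * (1 - r ^ 2)))
            = r ^ (b + 2) * (x * (hp (b + 1)).eval x - cc b * (hp b).eval x)
              * √(π * (1 - r ^ 2)) := by ring
          _ = _ := by rw [← hx']; ring
      exact mul_left_cancel₀ hc this

end mehler

/-- Mehler kernel. -/
noncomputable def mk (r x y : ℝ) : ℝ :=
  (√(π * (1 - r ^ 2)))⁻¹ *
    (Real.exp (-(1 / (1 - r ^ 2)) * (y - r * x) ^ 2) * Real.exp (-(x ^ 2) / 2 + y ^ 2 / 2))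

theorem mk_mul_ph (r x y : ℝ) (b : ℕ) :
    mk r x y * ph b y = ((√(π * (1 - r ^ 2)))⁻¹ * Real.exp (-(x ^ 2) / 2)) *
      ((hp b).eval y * Real.exp (-(1 / (1 - r ^ 2)) * (y - r * x) ^ 2)) := by
  unfold mk ph
  rw [Real.exp_add]
  have : Real.exp (y ^ 2 / 2) * Real.exp (-(y ^ 2) / 2) = 1 := by
    rw [← Real.exp_add]
    simp
    ring_nf
  calc _ = ((√(π * (1 - r ^ 2)))⁻¹ * Real.exp (-(x ^ 2) / 2)) *
      ((hp b).eval y * Real.exp (-(1 / (1 - r ^ 2)) * (y - r * x) ^ 2)) *
        (Real.exp (y ^ 2 / 2) * Real.exp (-(y ^ 2) / 2)) := by ring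
    _ = _ := by rw [this, mul_one]

theorem integrable_mk_ph {r : ℝ} (hr0 : 0 < r) (hr1 : r < 1) (x : ℝ) (b : ℕ) :
    Integrable (fun y => mk r x y * ph b y) := by
  have hr2 : 0 < 1 - r ^ 2 := by nlinarith
  simp only [mk_mul_ph]
  exact (integrable_poly_shift _ (by positivity) _).const_mul _

theorem integral_mk_ph {r : ℝ} (hr0 : 0 < r) (hr1 : r < 1) (x : ℝ) (b : ℕ) :
    ∫ y, mk r x y * ph b y = r ^ b * ph b x := by
  have hr2 : 0 < 1 - r ^ 2 := by nlinarith
  have hs : √(π * (1 - r ^ 2)) ≠ 0 := by positivity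
  simp only [mk_mul_ph]
  rw [integral_const_mul]
  have := mom_eq hr0 hr1 x b
  unfold mom at this
  rw [this]
  unfold ph
  field_simp

theorem mk_sq {r : ℝ} (hr0 : 0 < r) (hr1 : r < 1) (x y : ℝ) :
    mk r x y ^ 2 = ((π * (1 - r ^ 2))⁻¹ * Real.exp (-(x ^ 2) * ((1 - r ^ 2) / (1 + r ^ 2)))) *
      Real.exp (-((1 + r ^ 2) / (1 - r ^ 2)) * (y - 2 * r * x / (1 + r ^ 2)) ^ 2) := by
  have hr2 : 0 < 1 - r ^ 2 := by nlinarith
  unfold mk
  rw [← Real.exp_add, mul_pow, inv_pow, Real.sq_sqrt (by positivity), mul_assoc _ (Real.exp _),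
    ← Real.exp_add, ← Real.exp_nat_mul]
  congr 2
  have h1 : (1 - r ^ 2) ≠ 0 := hr2.ne'
  have h2 : (1 + r ^ 2) ≠ 0 := by positivity
  push_cast
  field_simp
  ring

theorem integrable_mk_sq {r : ℝ} (hr0 : 0 < r) (hr1 : r < 1) (x : ℝ) :
    Integrable (fun y => mk r x y ^ 2) := by
  have hr2 : 0 < 1 - r ^ 2 := by nlinarith
  simp only [mk_sq hr0 hr1]
  have := integrable_poly_shift 1 (show 0 < (1 + r ^ 2) / (1 - r ^ 2) by positivity)
    (2 * r * x / (1 + r ^ 2))
  simp only [eval_one, one_mul] at this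
  exact this.const_mul _

theorem integral_mk_sq {r : ℝ} (hr0 : 0 < r) (hr1 : r < 1) (x : ℝ) :
    ∫ y, mk r x y ^ 2 = (√(π * (1 - r ^ 4)))⁻¹ *
      Real.exp (-(x ^ 2) * ((1 - r ^ 2) / (1 + r ^ 2))) := by
  have hr2 : 0 < 1 - r ^ 2 := by nlinarith
  have hr4 : 0 < 1 - r ^ 4 := by nlinarith [sq_nonneg r]
  simp only [mk_sq hr0 hr1]
  rw [integral_const_mul, integral_gauss_shift]
  have h1 : (1 - r ^ 2) ≠ 0 := hr2.ne'
  have h2 : (1 + r ^ 2) ≠ 0 := by positivity
  have e : (π * (1 - r ^ 2))⁻¹ * √(π / ((1 + r ^ 2) / (1 - r ^ 2))) = (√(π * (1 - r ^ 4)))⁻¹ := by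
    rw [← Real.sqrt_inv, show (π * (1 - r ^ 2))⁻¹ = √(((π * (1 - r ^ 2))⁻¹) ^ 2) by
      rw [Real.sqrt_sq (by positivity)], ← Real.sqrt_mul (by positivity)]
    congr 1
    rw [show (1 - r ^ 4) = (1 - r ^ 2) * (1 + r ^ 2) by ring]
    field_simp
  rw [mul_right_comm, e]

/-- The diagonal Mehler inequality. -/
theorem mehler {q : ℝ} (hq0 : 0 < q) (hq1 : q < 1) (K : ℕ) (x : ℝ) :
    ∑ a ∈ Finset.range K, q ^ a * ph a x ^ 2
      ≤ (√(π * (1 - q ^ 2)))⁻¹ * Real.exp (-(x ^ 2) * ((1 - q) / (1 + q))) := by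
  obtain ⟨r, hr0, hr⟩ : ∃ r : ℝ, 0 < r ∧ r ^ 2 = q :=
    ⟨√q, Real.sqrt_pos.mpr hq0, Real.sq_sqrt hq0.le⟩
  have hr1 : r < 1 := by nlinarith
  have hI := integral_mk_sq hr0 hr1 x
  have hr4 : r ^ 4 = q ^ 2 := by rw [← hr]; ring
  rw [hr4, hr] at hI
  rw [← hI]
  set m : ℕ → ℝ := fun a => r ^ a * ph a x with hm
  have i1 := integrable_mk_sq hr0 hr1 x
  have i2 : Integrable (fun y => ∑ a ∈ Finset.range K, m a * (mk r x y * ph a y)) :=
    integrable_finsetSum _ fun a _ => (integrable_mk_ph hr0 hr1 x a).const_mul _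
  have i3 : Integrable (fun y => ∑ a ∈ Finset.range K, ∑ b ∈ Finset.range K,
      (m a * m b) * (ph a y * ph b y)) :=
    integrable_finsetSum _ fun a _ => integrable_finsetSum _ fun b _ =>
      (integrable_ph a b).const_mul _
  have e0 : ∀ y, (mk r x y - ∑ a ∈ Finset.range K, m a * ph a y) ^ 2
      = mk r x y ^ 2 - 2 * ∑ a ∈ Finset.range K, m a * (mk r x y * ph a y)
        + ∑ a ∈ Finset.range K, ∑ b ∈ Finset.range K, (m a * m b) * (ph a y * ph b y) := by
    intro y
    have e1 : ∑ a ∈ Finset.range K, ∑ b ∈ Finset.range K, (m a * m b) * (ph a y * ph b y)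
        = (∑ a ∈ Finset.range K, m a * ph a y) * ∑ b ∈ Finset.range K, m b * ph b y := by
      rw [Finset.sum_mul_sum]
      refine Finset.sum_congr rfl fun a _ => Finset.sum_congr rfl fun b _ => ?_
      ring
    have e2 : ∑ a ∈ Finset.range K, m a * (mk r x y * ph a y)
        = mk r x y * ∑ a ∈ Finset.range K, m a * ph a y := by
      rw [Finset.mul_sum]
      refine Finset.sum_congr rfl fun a _ => ?_
      ring
    rw [e1, e2]
    ring
  have h0 : 0 ≤ ∫ y, (mk r x y - ∑ a ∈ Finset.range K, m a * ph a y) ^ 2 :=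
    integral_nonneg fun y => sq_nonneg _
  have e3 : ∫ y, (mk r x y - ∑ a ∈ Finset.range K, m a * ph a y) ^ 2
      = (∫ y, mk r x y ^ 2) - 2 * (∑ a ∈ Finset.range K, m a ^ 2)
        + ∑ a ∈ Finset.range K, m a ^ 2 := by
    simp only [e0]
    have i4 : Integrable (fun y => mk r x y ^ 2
        - 2 * ∑ a ∈ Finset.range K, m a * (mk r x y * ph a y)) := i1.sub (i2.const_mul 2)
    rw [integral_add i4 i3, integral_sub i1 (i2.const_mul 2),
      integral_const_mul, integral_finsetSum _ fun a _ =>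
        (integrable_mk_ph hr0 hr1 x a).const_mul _,
      integral_finsetSum _ fun a _ => integrable_finsetSum _ fun b _ =>
      (integrable_ph a b).const_mul _]
    congr 1
    · congr 2
      refine Finset.sum_congr rfl fun a _ => ?_
      rw [integral_const_mul, integral_mk_ph hr0 hr1]
      simp only [hm]
      ring
    · refine Finset.sum_congr rfl fun a ha => ?_
      rw [integral_finsetSum _ fun b _ => (integrable_ph a b).const_mul _,
        Finset.sum_eq_single_of_mem a ha]
      · rw [integral_const_mul, integral_ph, if_pos rfl]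
        ring
      · intro b _ hb
        rw [integral_const_mul, integral_ph, if_neg (Ne.symm hb), mul_zero]
  rw [e3] at h0
  have e4 : ∑ a ∈ Finset.range K, q ^ a * ph a x ^ 2 = ∑ a ∈ Finset.range K, m a ^ 2 := by
    refine Finset.sum_congr rfl fun a _ => ?_
    simp only [hm]
    rw [← hr]
    ring
  rw [e4]
  linarith

end Pool.Agent.H548LP
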