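import Pool.Agent.H548LP.Hermite

/-!
Riemann sums on the real line.
-/

namespace Pool.Agent.H548LP

open MeasureTheory Real Polynomial Filter Topology

theorem cell_bound {F F' : ℝ → ℝ} (hF : ∀ x, HasDerivAt F (F' x) x) (hi : Integrable F)
    (hi' : Integrable F') {a b : ℝ} (hab : a ≤ b) :
    |(∫ x in a..b, F x) - (b - a) * F a| ≤ (b - a) * ∫ x in a..b, |F' x| := by
  have h1 : ∀ x ∈ Set.Icc a b, |F x - F a| ≤ ∫ y in a..b, |F' y| := by
    intro x hx
    have h2 : ∫ y in a..x, F' y = F x - F a :=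
      intervalIntegral.integral_eq_sub_of_hasDerivAt (fun y _ => hF y) (hi'.intervalIntegrable)
    rw [← h2]
    refine (intervalIntegral.abs_integral_le_integral_abs hx.1).trans ?_
    refine intervalIntegral.integral_mono_interval le_rfl hx.1 hx.2 ?_ hi'.abs.intervalIntegrable
    exact Eventually.of_forall fun y => abs_nonneg _
  have h3 : (∫ x in a..b, F x) - (b - a) * F a = ∫ x in a..b, (F x - F a) := by
    rw [intervalIntegral.integral_sub hi.intervalIntegrable intervalIntegrable_const,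
      intervalIntegral.integral_const, smul_eq_mul]
  rw [h3]
  have h4 := intervalIntegral.norm_integral_le_of_norm_le_const (a := a) (b := b)
    (f := fun x => F x - F a) (C := ∫ y in a..b, |F' y|) (by
      intro x hx
      rw [Set.uIoc_of_le hab] at hx
      rw [Real.norm_eq_abs]
      exact h1 x ⟨hx.1.le, hx.2⟩)
  rw [Real.norm_eq_abs, abs_of_nonneg (sub_nonneg.mpr hab)] at h4
  linarith

theorem riemann {F F' : ℝ → ℝ} (hF : ∀ x, HasDerivAt F (F' x) x) (hi : Integrable F)
    (hi' : Integrable F') {h : ℝ} (hh : 0 < h) :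
    ∀ᶠ J : ℕ in atTop, |h * ∑ k ∈ Finset.range (2 * J), F (((k : ℝ) - J) * h) - ∫ x, F x|
      ≤ h * ((∫ x, |F' x|) + 1) := by
  have hJ : Tendsto (fun J : ℕ => (J : ℝ) * h) atTop atTop :=
    tendsto_natCast_atTop_atTop.atTop_mul_const hh
  have hJ' : Tendsto (fun J : ℕ => -((J : ℝ) * h)) atTop atBot := tendsto_neg_atTop_atBot.comp hJ
  have hlim := intervalIntegral_tendsto_integral hi hJ' hJ
  filter_upwards [(Metric.tendsto_nhds.mp hlim) h hh] with J hJd
  rw [Real.dist_eq] at hJd
  set a : ℕ → ℝ := fun k => ((k : ℝ) - J) * h with ha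
  have h1 : ∀ k, a (k + 1) - a k = h := by
    intro k
    simp only [ha]
    push_cast
    ring
  have h2 : ∀ k, a k ≤ a (k + 1) := fun k => by linarith [h1 k]
  have h3 := intervalIntegral.sum_integral_adjacent_intervals (f := F) (μ := volume) (a := a)
    (n := 2 * J) (fun k _ => hi.intervalIntegrable)
  have h4 := intervalIntegral.sum_integral_adjacent_intervals (f := fun x => |F' x|) (μ := volume)
    (a := a) (n := 2 * J) (fun k _ => hi'.abs.intervalIntegrable)
  have ha0 : a 0 = -((J : ℝ) * h) := by simp only [ha]; push_cast; ring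
  have ha1 : a (2 * J) = (J : ℝ) * h := by simp only [ha]; push_cast; ring
  rw [ha0, ha1] at h3 h4
  have h5 : |(∫ x in (-((J : ℝ) * h))..((J : ℝ) * h), F x)
      - h * ∑ k ∈ Finset.range (2 * J), F (a k)| ≤ h * ∫ x, |F' x| := by
    rw [← h3, Finset.mul_sum, ← Finset.sum_sub_distrib]
    refine (Finset.abs_sum_le_sum_abs _ _).trans ?_
    calc ∑ k ∈ Finset.range (2 * J), |(∫ x in a k..a (k + 1), F x) - h * F (a k)|
        ≤ ∑ k ∈ Finset.range (2 * J), h * ∫ x in a k..a (k + 1), |F' x| := by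
          refine Finset.sum_le_sum fun k _ => ?_
          have := cell_bound hF hi hi' (h2 k)
          rw [h1 k] at this
          exact this
      _ = h * ∫ x in (-((J : ℝ) * h))..((J : ℝ) * h), |F' x| := by
          rw [← Finset.mul_sum, h4]
      _ ≤ _ := by
          refine mul_le_mul_of_nonneg_left ?_ hh.le
          have hle : -((J : ℝ) * h) ≤ (J : ℝ) * h := by
            have : 0 ≤ (J : ℝ) * h := by positivity
            linarith
          rw [intervalIntegral.integral_of_le hle]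
          exact setIntegral_le_integral hi'.abs (Eventually.of_forall fun y => abs_nonneg _)
  have h6 : |h * ∑ k ∈ Finset.range (2 * J), F (a k) - ∫ x, F x|
      ≤ |(∫ x in (-((J : ℝ) * h))..((J : ℝ) * h), F x)
      - h * ∑ k ∈ Finset.range (2 * J), F (a k)|
        + |(∫ x in (-((J : ℝ) * h))..((J : ℝ) * h), F x) - ∫ x, F x| := by
    rw [abs_sub_comm (∫ x in (-((J : ℝ) * h))..((J : ℝ) * h), F x)
      (h * ∑ k ∈ Finset.range (2 * J), F (a k))]
    exact abs_sub_le _ _ _
  linarith

/-- Riemann sums of polynomials times `exp (-x²)`. -/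
theorem riemann_poly (Q : ℝ[X]) : ∃ C : ℝ, 0 ≤ C ∧ ∀ h : ℝ, 0 < h → ∀ᶠ J : ℕ in atTop,
    |h * ∑ k ∈ Finset.range (2 * J), (Q.eval (((k : ℝ) - J) * h) *
      Real.exp (-1 * (((k : ℝ) - J) * h) ^ 2)) - ∫ x, Q.eval x * Real.exp (-1 * x ^ 2)|
      ≤ C * h := by
  set Q' : ℝ[X] := derivative Q - 2 * X * Q with hQ'
  have hF : ∀ x, HasDerivAt (fun x => Q.eval x * Real.exp (-1 * x ^ 2))
      (Q'.eval x * Real.exp (-1 * x ^ 2)) x := by
    intro x
    have h1 : HasDerivAt (fun y : ℝ => -1 * y ^ 2) (-1 * (2 * x)) x := by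
      have := (hasDerivAt_pow 2 x).const_mul (-1 : ℝ)
      refine this.congr_deriv ?_
      simp
    refine ((Q.hasDerivAt x).mul h1.exp).congr_deriv ?_
    simp only [hQ', eval_sub, eval_mul, eval_X, eval_ofNat]
    ring
  have hi := integrable_poly_gauss Q one_pos
  have hi' := integrable_poly_gauss Q' one_pos
  refine ⟨(∫ x, |Q'.eval x * Real.exp (-1 * x ^ 2)|) + 1, ?_, fun h hh => ?_⟩
  · have : 0 ≤ ∫ x, |Q'.eval x * Real.exp (-1 * x ^ 2)| := integral_nonneg fun x => abs_nonneg _
    linarith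
  · filter_upwards [riemann hF hi hi' hh] with J hJ
    rw [mul_comm _ h]
    exact hJ

end Pool.Agent.H548LP
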